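import Mathlib

/-!
# Parity-admissible linear orderings for skew-symmetrizable matrices

A skew-symmetric `7 × 7` matrix without parity-admissible linear ordering.
-/

set_option autoImplicit false

namespace Pool.Agent.Results.MP_f0f309_al.NoOrdering

section defs

variable {n : ℕ}

/-- Skew-symmetrizable integer matrices. -/
def SkewSymmetrizable (B : Matrix (Fin n) (Fin n) ℤ) : Prop :=
  ∃ d : Fin n → ℤ, (∀ i, 0 < d i) ∧
    (B * Matrix.diagonal d).transpose = -(B * Matrix.diagonal d)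

open Classical in
/-- The GIM determined by a linear ordering. -/
noncomputable def gim (B : Matrix (Fin n) (Fin n) ℤ) (o : LinearOrder (Fin n)) :
    Matrix (Fin n) (Fin n) ℤ :=
  fun i j => if i = j then 2 else if o.lt i j then B i j else -B i j

/-- Oriented chordless cycles `(c 0, c 1, …, c m)`, `c m = c 0`, of length `m`. -/
def IsOrientedChordlessCycle (B : Matrix (Fin n) (Fin n) ℤ) (m : ℕ) (c : ℕ → Fin n) : Prop :=
  3 ≤ m ∧ c m = c 0 ∧ (∀ j < m, ∀ k < m, c j = c k → j = k) ∧
    (∀ j < m, ∀ k < m, j ≠ k →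
      (B (c j) (c k) ≠ 0 ↔ ((j + 1) % m = k ∨ (k + 1) % m = j))) ∧
    ((∀ j < m, 0 < B (c j) (c (j + 1))) ∨ (∀ j < m, B (c j) (c (j + 1)) < 0))

/-- Every oriented chordless cycle has an odd number of positive entries. -/
def Admissible (B : Matrix (Fin n) (Fin n) ℤ) (o : LinearOrder (Fin n)) : Prop :=
  ∀ (m : ℕ) (c : ℕ → Fin n), IsOrientedChordlessCycle B m c →
    Odd ((Finset.range m).filter fun j => 0 < gim B o (c j) (c (j + 1))).card

end defs

/-- The example. -/
def B : Matrix (Fin 7) (Fin 7) ℤ :=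
  !![0, 0, 1, -1, -1, 1, 0;
     0, 0, 1, -1, 1, -1, 0;
     -1, -1, 0, 1, 0, 0, 1;
     1, 1, -1, 0, -1, -1, 1;
     1, -1, 0, 1, 0, 0, -1;
     -1, 1, 0, 1, 0, 0, -1;
     0, 0, -1, -1, 1, 1, 0]

open Classical in
/-- The order as a Boolean matrix. -/
noncomputable def L (o : LinearOrder (Fin 7)) (i j : Fin 7) : Bool := decide (o.lt i j)

theorem lt_iff {α : Type*} (o : LinearOrder α) {i j : α} (h : i ≠ j) : o.lt i j ↔ ¬ o.lt j i := by
  change i < j ↔ ¬ j < i
  rw [not_lt]
  exact ⟨le_of_lt, fun h' => lt_of_le_of_ne h' h⟩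

theorem lt_tr {α : Type*} (o : LinearOrder α) {i j k : α} (h : o.lt i j) (h' : o.lt j k) :
    o.lt i k := lt_trans (show i < j from h) h'

theorem flip (o : LinearOrder (Fin 7)) {i j : Fin 7} (h : i ≠ j) : L o i j = !L o j i := by
  unfold L
  have h1 : o.lt i j ↔ ¬ o.lt j i := lt_iff o h
  by_cases h2 : o.lt j i <;> simp [h2, h1]

theorem tA (o : LinearOrder (Fin 7)) (i j k : Fin 7) : (L o i j && L o j k && !L o i k) = false := by
  unfold L
  by_cases h1 : o.lt i j
  · by_cases h2 : o.lt j k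
    · have h3 : o.lt i k := lt_tr o h1 h2
      simp [h1, h2, h3]
    · simp [h2]
  · simp [h1]

theorem tB (o : LinearOrder (Fin 7)) (i j k : Fin 7) (hij : i ≠ j) (hjk : j ≠ k) (hik : i ≠ k) :
    (!L o i j && !L o j k && L o i k) = false := by
  have h := tA o k j i
  rw [flip o hij, flip o hjk, flip o hik]
  revert h
  generalize L o k j = a
  generalize L o j i = b
  generalize L o k i = c
  revert a b c
  decide

theorem gim_pos (o : LinearOrder (Fin 7)) {i j : Fin 7} (h : B i j < 0) :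
    (0 < gim B o i j) ↔ L o j i = true := by
  have hij : i ≠ j := by
    rintro rfl
    revert h
    revert i
    decide
  have h1 := flip o hij.symm
  unfold L at h1 ⊢
  unfold gim
  rw [if_neg hij]
  by_cases h2 : o.lt i j
  · rw [if_pos h2]
    rw [h1]
    simp [h2]
    exact h.le
  · rw [if_neg h2, h1]
    simp [h2]
    exact h

theorem cyc3 (o : LinearOrder (Fin 7)) (ho : Admissible B o) (u v w : Fin 7)
    (h1 : B u v < 0 ∧ B v w < 0 ∧ B w u < 0) (h2 : u ≠ v ∧ v ≠ w ∧ w ≠ u)
    (h3 : B u w ≠ 0 ∧ B v u ≠ 0 ∧ B w v ≠ 0) :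
    (L o v u ^^ L o w v ^^ L o u w) = true := by
  have hc : IsOrientedChordlessCycle B 3 (fun j => ![u, v, w] (Fin.ofNat 3 j)) := by
    refine ⟨le_rfl, rfl, ?_, ?_, Or.inr ?_⟩
    · intro j hj k hk hjk
      interval_cases j <;> interval_cases k <;> first | rfl | (exfalso; revert hjk; simp [Fin.ofNat, h2.1, h2.1.symm, h2.2.1, h2.2.1.symm, h2.2.2, h2.2.2.symm])
    · intro j hj k hk hjk
      interval_cases j <;> interval_cases k <;> first | (exact absurd rfl hjk) | (simp [Fin.ofNat]; first | exact h1.1.ne | exact h1.2.1.ne | exact h1.2.2.ne | exact h3.1 | exact h3.2.1 | exact h3.2.2)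
    · intro j hj
      interval_cases j
      · exact h1.1
      · exact h1.2.1
      · exact h1.2.2
  have h := ho 3 _ hc
  rw [Finset.card_filter, Finset.sum_range_succ, Finset.sum_range_succ, Finset.sum_range_succ,
    Finset.sum_range_zero] at h
  have e0 : (0 < gim B o (![u, v, w] (Fin.ofNat 3 0)) (![u, v, w] (Fin.ofNat 3 (0 + 1)))) ↔
    L o v u = true := gim_pos o h1.1
  have e1 : (0 < gim B o (![u, v, w] (Fin.ofNat 3 1)) (![u, v, w] (Fin.ofNat 3 (1 + 1)))) ↔
    L o w v = true := gim_pos o h1.2.1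
  have e2 : (0 < gim B o (![u, v, w] (Fin.ofNat 3 2)) (![u, v, w] (Fin.ofNat 3 (2 + 1)))) ↔
    L o u w = true := gim_pos o h1.2.2
  simp only [e0, e1, e2] at h
  revert h
  generalize L o v u = a
  generalize L o w v = b
  generalize L o u w = c
  revert a b c
  decide

theorem cyc4 (o : LinearOrder (Fin 7)) (ho : Admissible B o) (u v w z : Fin 7)
    (h1 : B u v < 0 ∧ B v w < 0 ∧ B w z < 0 ∧ B z u < 0)
    (h2 : u ≠ v ∧ v ≠ w ∧ w ≠ z ∧ z ≠ u ∧ u ≠ w ∧ v ≠ z)
    (h3 : (B u z ≠ 0 ∧ B v u ≠ 0 ∧ B w v ≠ 0 ∧ B z w ≠ 0) ∧ B u w = 0 ∧ B w u = 0 ∧ B v z = 0 ∧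
      B z v = 0) :
    (L o v u ^^ L o w v ^^ L o z w ^^ L o u z) = true := by
  have hc : IsOrientedChordlessCycle B 4 (fun j => ![u, v, w, z] (Fin.ofNat 4 j)) := by
    refine ⟨by norm_num, rfl, ?_, ?_, Or.inr ?_⟩
    · intro j hj k hk hjk
      interval_cases j <;> interval_cases k <;> first | rfl | (exfalso; revert hjk; simp [Fin.ofNat, h2.1, h2.1.symm, h2.2.1, h2.2.1.symm, h2.2.2.1, h2.2.2.1.symm, h2.2.2.2.1, h2.2.2.2.1.symm, h2.2.2.2.2.1, h2.2.2.2.2.1.symm, h2.2.2.2.2.2, h2.2.2.2.2.2.symm])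
    · intro j hj k hk hjk
      interval_cases j <;> interval_cases k <;> first | (exact absurd rfl hjk) | (simp [Fin.ofNat]; first | exact h1.1.ne | exact h1.2.1.ne | exact h1.2.2.1.ne | exact h1.2.2.2.ne | exact h3.1.1 | exact h3.1.2.1 | exact h3.1.2.2.1 | exact h3.1.2.2.2 | exact h3.2.1 | exact h3.2.2.1 | exact h3.2.2.2.1 | exact h3.2.2.2.2)
    · intro j hj
      interval_cases j
      · exact h1.1
      · exact h1.2.1
      · exact h1.2.2.1
      · exact h1.2.2.2
  have h := ho 4 _ hc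
  rw [Finset.card_filter, Finset.sum_range_succ, Finset.sum_range_succ, Finset.sum_range_succ,
    Finset.sum_range_succ, Finset.sum_range_zero] at h
  have e0 : (0 < gim B o (![u, v, w, z] (Fin.ofNat 4 0)) (![u, v, w, z] (Fin.ofNat 4 (0 + 1)))) ↔
    L o v u = true := gim_pos o h1.1
  have e1 : (0 < gim B o (![u, v, w, z] (Fin.ofNat 4 1)) (![u, v, w, z] (Fin.ofNat 4 (1 + 1)))) ↔
    L o w v = true := gim_pos o h1.2.1
  have e2 : (0 < gim B o (![u, v, w, z] (Fin.ofNat 4 2)) (![u, v, w, z] (Fin.ofNat 4 (2 + 1)))) ↔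
    L o z w = true := gim_pos o h1.2.2.1
  have e3 : (0 < gim B o (![u, v, w, z] (Fin.ofNat 4 3)) (![u, v, w, z] (Fin.ofNat 4 (3 + 1)))) ↔
    L o u z = true := gim_pos o h1.2.2.2
  simp only [e0, e1, e2, e3] at h
  revert h
  generalize L o v u = a
  generalize L o w v = b
  generalize L o z w = c
  generalize L o u z = d
  revert a b c d
  decide

set_option maxRecDepth 100000 in
set_option synthInstance.maxSize 100000 in
theorem key : ∀ x05 : Bool, 
    ∀ x03 : Bool, 
    ∀ x35 : Bool, 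
    (x03 ^^ x35 ^^ x05) = true → 
    (x03 && x35 && !x05) = false → 
    (!x03 && !x35 && x05) = false → 
    ∀ x36 : Bool, 
    ∀ x56 : Bool, 
    (x35 ^^ x56 ^^ x36) = true → 
    (x35 && x56 && !x36) = false → 
    (!x35 && !x56 && x36) = false → 
    ∀ x23 : Bool, 
    ∀ x02 : Bool, 
    (x03 ^^ x23 ^^ x02) = false → 
    (x02 && x23 && !x03) = false → 
    (!x02 && !x23 && x03) = false → 
    ∀ x13 : Bool, 
    ∀ x12 : Bool, 
    (x13 ^^ x23 ^^ x12) = false → 
    (x12 && x23 && !x13) = false → 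
    (!x12 && !x23 && x13) = false → 
    ∀ x26 : Bool, 
    (x23 && x36 && !x26) = false → 
    (!x23 && !x36 && x26) = false → 
    ∀ x15 : Bool, 
    (x15 ^^ x56 ^^ x26 ^^ x12) = true → 
    (x13 && x35 && !x15) = false → 
    (!x13 && !x35 && x15) = false → 
    ∀ x34 : Bool, 
    ∀ x46 : Bool, 
    (x34 ^^ x46 ^^ x36) = true → 
    (x34 && x46 && !x36) = false → 
    (!x34 && !x46 && x36) = false → 
    ∀ x04 : Bool, 
    (x04 ^^ x46 ^^ x26 ^^ x02) = true → 
    (x03 && x34 && !x04) = false → 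
    (!x03 && !x34 && x04) = false → 
    ∀ x14 : Bool, 
    (x04 ^^ x14 ^^ x15 ^^ x05) = true → 
    (x13 ^^ x34 ^^ x14) = true → 
    (x13 && x34 && !x14) = false → 
    (!x13 && !x34 && x14) = false → 
    False := by decide

theorem not_admissible (o : LinearOrder (Fin 7)) : ¬ Admissible B o := by
  intro ho
  have c032 : (L o 0 3 ^^ L o 2 3 ^^ L o 0 2) = false := by
    have h := cyc3 o ho 0 3 2 (by decide) (by decide) (by decide)
    rw [flip o (show (3 : Fin 7) ≠ 0 by decide)] at h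
    revert h
    generalize L o 0 3 = y0
    generalize L o 2 3 = y1
    generalize L o 0 2 = y2
    revert y0 y1 y2
    decide
  have c035 : (L o 0 3 ^^ L o 3 5 ^^ L o 0 5) = true := by
    have h := cyc3 o ho 0 3 5 (by decide) (by decide) (by decide)
    rw [flip o (show (3 : Fin 7) ≠ 0 by decide), flip o (show (5 : Fin 7) ≠ 3 by decide)] at h
    revert h
    generalize L o 0 3 = y0
    generalize L o 3 5 = y1
    generalize L o 0 5 = y2
    revert y0 y1 y2
    decide
  have c0415 : (L o 0 4 ^^ L o 1 4 ^^ L o 1 5 ^^ L o 0 5) = true := by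
    have h := cyc4 o ho 0 4 1 5 (by decide) (by decide) (by decide)
    rw [flip o (show (4 : Fin 7) ≠ 0 by decide), flip o (show (5 : Fin 7) ≠ 1 by decide)] at h
    revert h
    generalize L o 0 4 = y0
    generalize L o 1 4 = y1
    generalize L o 1 5 = y2
    generalize L o 0 5 = y3
    revert y0 y1 y2 y3
    decide
  have c0462 : (L o 0 4 ^^ L o 4 6 ^^ L o 2 6 ^^ L o 0 2) = true := by
    have h := cyc4 o ho 0 4 6 2 (by decide) (by decide) (by decide)
    rw [flip o (show (4 : Fin 7) ≠ 0 by decide), flip o (show (6 : Fin 7) ≠ 4 by decide)] at h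
    revert h
    generalize L o 0 4 = y0
    generalize L o 4 6 = y1
    generalize L o 2 6 = y2
    generalize L o 0 2 = y3
    revert y0 y1 y2 y3
    decide
  have c132 : (L o 1 3 ^^ L o 2 3 ^^ L o 1 2) = false := by
    have h := cyc3 o ho 1 3 2 (by decide) (by decide) (by decide)
    rw [flip o (show (3 : Fin 7) ≠ 1 by decide)] at h
    revert h
    generalize L o 1 3 = y0
    generalize L o 2 3 = y1
    generalize L o 1 2 = y2
    revert y0 y1 y2
    decide
  have c134 : (L o 1 3 ^^ L o 3 4 ^^ L o 1 4) = true := by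
    have h := cyc3 o ho 1 3 4 (by decide) (by decide) (by decide)
    rw [flip o (show (3 : Fin 7) ≠ 1 by decide), flip o (show (4 : Fin 7) ≠ 3 by decide)] at h
    revert h
    generalize L o 1 3 = y0
    generalize L o 3 4 = y1
    generalize L o 1 4 = y2
    revert y0 y1 y2
    decide
  have c1562 : (L o 1 5 ^^ L o 5 6 ^^ L o 2 6 ^^ L o 1 2) = true := by
    have h := cyc4 o ho 1 5 6 2 (by decide) (by decide) (by decide)
    rw [flip o (show (5 : Fin 7) ≠ 1 by decide), flip o (show (6 : Fin 7) ≠ 5 by decide)] at h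
    revert h
    generalize L o 1 5 = y0
    generalize L o 5 6 = y1
    generalize L o 2 6 = y2
    generalize L o 1 2 = y3
    revert y0 y1 y2 y3
    decide
  have c346 : (L o 3 4 ^^ L o 4 6 ^^ L o 3 6) = true := by
    have h := cyc3 o ho 3 4 6 (by decide) (by decide) (by decide)
    rw [flip o (show (4 : Fin 7) ≠ 3 by decide), flip o (show (6 : Fin 7) ≠ 4 by decide)] at h
    revert h
    generalize L o 3 4 = y0
    generalize L o 4 6 = y1
    generalize L o 3 6 = y2
    revert y0 y1 y2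
    decide
  have c356 : (L o 3 5 ^^ L o 5 6 ^^ L o 3 6) = true := by
    have h := cyc3 o ho 3 5 6 (by decide) (by decide) (by decide)
    rw [flip o (show (5 : Fin 7) ≠ 3 by decide), flip o (show (6 : Fin 7) ≠ 5 by decide)] at h
    revert h
    generalize L o 3 5 = y0
    generalize L o 5 6 = y1
    generalize L o 3 6 = y2
    revert y0 y1 y2
    decide
  exact key (L o 0 5) (L o 0 3) (L o 3 5) (c035) (tA o 0 3 5) (tB o 0 3 5 (by decide) (by decide) (by decide)) (L o 3 6) (L o 5 6) (c356) (tA o 3 5 6) (tB o 3 5 6 (by decide) (by decide) (by decide)) (L o 2 3) (L o 0 2) (c032) (tA o 0 2 3) (tB o 0 2 3 (by decide) (by decide) (by decide)) (L o 1 3) (L o 1 2) (c132) (tA o 1 2 3) (tB o 1 2 3 (by decide) (by decide) (by decide)) (L o 2 6) (tA o 2 3 6) (tB o 2 3 6 (by decide) (by decide) (by decide)) (L o 1 5) (c1562) (tA o 1 3 5) (tB o 1 3 5 (by decide) (by decide) (by decide)) (L o 3 4) (L o 4 6) (c346) (tA o 3 4 6) (tB o 3 4 6 (by decide) (by decide) (by decide)) (L o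 0 4) (c0462) (tA o 0 3 4) (tB o 0 3 4 (by decide) (by decide) (by decide)) (L o 1 4) (c0415) (c134) (tA o 1 3 4) (tB o 1 3 4 (by decide) (by decide) (by decide))

/-- **Theorem** (Q1 is false). There is a skew-symmetrizable (even skew-symmetric) matrix such that
for every linear ordering some oriented chordless cycle has an even number of positive entries. -/
theorem result : ∃ B : Matrix (Fin 7) (Fin 7) ℤ, SkewSymmetrizable B ∧
    ∀ o : LinearOrder (Fin 7), ∃ (m : ℕ) (c : ℕ → Fin 7), IsOrientedChordlessCycle B m c ∧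
      Even ((Finset.range m).filter fun j => 0 < gim B o (c j) (c (j + 1))).card := by
  refine ⟨B, ⟨fun _ => 1, fun _ => one_pos, ?_⟩, ?_⟩
  · have : Matrix.diagonal (fun _ : Fin 7 => (1 : ℤ)) = 1 := Matrix.diagonal_one
    rw [this, mul_one]
    ext i j
    revert i j
    decide
  · intro o
    by_contra hno
    push Not at hno
    exact not_admissible o fun m c hc => Nat.not_even_iff_odd.mp (hno m c hc)

end Pool.Agent.Results.MP_f0f309_al.NoOrdering
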